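import Mathlib
import Pool.Agent.H89.DL2

set_option autoImplicit false

namespace Pool.Agent.Results.MP_6f2e8a_an.Counter

open Complex Metric Filter Topology Pool.Agent.H89.DL

/-- Euclidean norm of a lattice point. -/
noncomputable def eucl {n : ℕ} (k : Fin n → ℤ) : ℝ := Real.sqrt (∑ i, (k i : ℝ) ^ 2)

/-- `f_a(s) = ∑' P(k) ‖k‖^{-s} e^{2πi k·a}`, the term `k = 0` omitted. -/
noncomputable def f {n : ℕ} (P : MvPolynomial (Fin n) ℂ) (a : Fin n → ℝ) (s : ℂ) : ℂ :=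
  ∑' k : {k : Fin n → ℤ // k ≠ 0}, MvPolynomial.eval (fun i => (k.1 i : ℂ)) P *
    (eucl k.1 : ℂ) ^ (-s) * exp (2 * Real.pi * I * ((∑ i, (k.1 i : ℝ) * a i : ℝ) : ℂ))

/-- Rapidly decreasing sequences on `(ℤ^n)^q`. -/
def Rapid {n q : ℕ} (b : (Fin q → Fin n → ℤ) → ℂ) : Prop :=
  ∀ m : Fin q → Fin n → ℕ, ∃ C : ℝ, ∀ l, (∏ i, ∏ j, |(l i j : ℝ)| ^ m i j) * ‖b l‖ ≤ C

/-- `∑ ε_i l_i`. -/
def comb {n q : ℕ} (ε : Fin q → ℤ) (l : Fin q → Fin n → ℤ) : Fin n → ℤ := ∑ i, ε i • l i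

noncomputable def g0 {n q : ℕ} (Θ : Matrix (Fin n) (Fin n) ℝ) (P : MvPolynomial (Fin n) ℂ)
    (b : (Fin q → Fin n → ℤ) → ℂ) (ε : Fin q → ℤ) (s : ℂ) : ℂ :=
  ∑' l : {l : Fin q → Fin n → ℤ // comb ε l ≠ 0},
    b l.1 * f P (Θ.mulVec fun j => (comb ε l.1 j : ℝ)) s

def BadVec {n : ℕ} (a : Fin n → ℝ) : Prop :=
  ∃ δ : ℝ, 0 < δ ∧ ∃ c : ℝ, 0 < c ∧ ∀ v : Fin n → ℤ, v ≠ 0 → ∀ m : ℤ,
    c * eucl v ^ (-δ) ≤ |∑ i, (v i : ℝ) * a i - m|

def BadMat {n : ℕ} (Θ : Matrix (Fin n) (Fin n) ℝ) : Prop :=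
  ∃ u : Fin n → ℤ, BadVec (Θ.transpose.mulVec fun i => (u i : ℝ))

/-- Property (H). -/
def HasH {n : ℕ} (Θ : Matrix (Fin n) (Fin n) ℝ) : Prop :=
  ∀ q : ℕ, 1 ≤ q → ∀ (d : ℕ) (P : MvPolynomial (Fin n) ℂ), P.IsHomogeneous d →
    ∀ b : (Fin q → Fin n → ℤ) → ℂ, Rapid b → ∀ ε : Fin q → ℤ, (∀ i, ε i = -1 ∨ ε i = 0 ∨ ε i = 1) →
      ∃ G : ℂ → ℂ, Differentiable ℂ G ∧ ∀ s : ℂ, (n : ℝ) + d < s.re → G s = g0 Θ P b ε s

/-- `Θ = √2 · I₂`. -/
noncomputable def Θ0 : Matrix (Fin 2) (Fin 2) ℝ := Real.sqrt 2 • (1 : Matrix (Fin 2) (Fin 2) ℝ)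

theorem mulVec0 (x : Fin 2 → ℝ) : Θ0.mulVec x = fun j => Real.sqrt 2 * x j := by
  unfold Θ0
  rw [Matrix.smul_mulVec, Matrix.one_mulVec]; rfl

theorem notBad : ¬ BadMat Θ0 := by
  rintro ⟨u, δ, hδ, c, hc, h⟩
  have ht : Θ0.transpose = Θ0 := by simp [Θ0]
  rw [ht, mulVec0] at h
  have : ∃ v : Fin 2 → ℤ, v ≠ 0 ∧ ∑ i, (v i : ℝ) * (Real.sqrt 2 * u i) = 0 := by
    by_cases hu : u = 0
    · exact ⟨fun _ => 1, fun h => by simpa using congrFun h 0, by simp [hu]⟩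
    · refine ⟨![-u 1, u 0], fun h => hu ?_, by simp [Fin.sum_univ_two]; ring⟩
      have h0 := congrFun h 0
      have h1 := congrFun h 1
      funext i; fin_cases i
      · simpa using h1
      · simpa using h0
  obtain ⟨v, hv, e⟩ := this
  have := h v hv 0
  rw [e] at this
  have hp : 0 < eucl v := nrm_pos hv
  have := mul_pos hc (Real.rpow_pos_of_pos hp (-δ))
  simp at *
  linarith

noncomputable def E (a : Fin 2 → ℝ) (k : Fin 2 → ℤ) : ℂ :=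
  exp (2 * Real.pi * I * ((∑ i, (k i : ℝ) * a i : ℝ) : ℂ))

theorem norm_E (a : Fin 2 → ℝ) (k : Fin 2 → ℤ) : ‖E a k‖ = 1 := by
  unfold E
  rw [show 2 * Real.pi * I * ((∑ i, (k i : ℝ) * a i : ℝ) : ℂ)
    = ((2 * Real.pi * (∑ i, (k i : ℝ) * a i) : ℝ) : ℂ) * I by push_cast; ring]
  exact Complex.norm_exp_ofReal_mul_I _

theorem E_sub (a : Fin 2 → ℝ) (j : Fin 2) (k : Fin 2 → ℤ) :
    E a (k - Pi.single j 1) = exp (-(2 * Real.pi * I * (a j : ℂ))) * E a k := by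
  unfold E
  rw [← Complex.exp_add]
  congr 1
  fin_cases j <;> simp [Fin.sum_univ_two] <;> ring

theorem f_eq (P : MvPolynomial (Fin 2) ℂ) (a : Fin 2 → ℝ) (s : ℂ) :
    f P a s = ∑' k, Fs P s k * E a k := by
  unfold f
  rw [← tsum_subtype_eq_of_support_subset (s := {k : Fin 2 → ℤ | k ≠ 0})
    (f := fun k => Fs P s k * E a k) (fun k hk h0 => hk (by
      have : k = 0 := h0
      simp [Fs, this]))]
  refine tsum_congr fun k => ?_
  have hk : k.1 ≠ 0 := k.2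
  simp only [Fs, if_neg hk]
  rfl

theorem weight_summable {q : ℕ} (hq : 1 ≤ q) (b : (Fin q → Fin 2 → ℤ) → ℂ) (hb : Rapid b)
    (ε : Fin q → ℤ) (hε : ∀ i, ε i = -1 ∨ ε i = 0 ∨ ε i = 1) (m : ℕ) :
    ∃ w : (Fin q → Fin 2 → ℤ) → ℝ, Summable w ∧ ∀ l j, comb ε l j ≠ 0 →
      ‖b l‖ * |(comb ε l j : ℝ)| ^ m ≤ w l := by
  classical
  haveI : Nonempty (Fin q) := ⟨⟨0, hq⟩⟩
  have hg : Summable fun x : ℤ => 1 / (1 + (x:ℝ) ^ 2) := by
    refine Summable.of_norm_bounded_eventually (Real.summable_one_div_int_pow.mpr one_lt_two) ?_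
    filter_upwards [(Set.finite_singleton (0:ℤ)).compl_mem_cofinite] with x hx
    have hx' : (x:ℝ) ≠ 0 := by exact_mod_cast hx
    rw [Real.norm_eq_abs, abs_of_pos (by positivity)]
    exact one_div_le_one_div_of_le (by positivity) (by linarith)
  have hs := summable_pi (ι := Fin q) _ (fun x => Finset.prod_nonneg fun j _ => by positivity)
    (summable_pi (ι := Fin 2) _ (fun x => by positivity) hg)
  set N := m + 2 * (2 * q) with hN
  have hC : ∀ p : Fin q × Fin 2, ∃ C : ℝ, ∀ l : Fin q → Fin 2 → ℤ,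
      |(l p.1 p.2 : ℝ)| ^ N * ‖b l‖ ≤ C := by
    intro p
    obtain ⟨C, hC⟩ := hb (fun i j => if (i, j) = p then N else 0)
    refine ⟨C, fun l => le_of_eq_of_le ?_ (hC l)⟩
    congr 1
    rw [← Finset.prod_product', Finset.prod_eq_single p]
    · simp
    · intro r _ hr; simp [hr]
    · simp
  choose C hC using hC
  refine ⟨_, hs.mul_left ((q:ℝ) ^ m * 2 ^ (2 * q) * ∑ p, |C p|), fun l j hj => ?_⟩
  obtain ⟨p, hp⟩ := Finite.exists_max (fun p : Fin q × Fin 2 => |(l p.1 p.2 : ℝ)|)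
  set L := |(l p.1 p.2 : ℝ)| with hL
  have hL0 : 0 ≤ L := abs_nonneg _
  have hu : |(comb ε l j : ℝ)| ≤ q * L := by
    unfold comb
    rw [Finset.sum_apply]
    push_cast
    refine (Finset.abs_sum_le_sum_abs _ _).trans ?_
    refine (Finset.sum_le_sum (g := fun _ => L) fun i _ => ?_).trans (by simp)
    have := hp (i, j)
    rcases hε i with h | h | h <;> simp [h] <;> first | exact this | exact hL0
  have hL1 : 1 ≤ L := by
    have h0 : l p.1 p.2 ≠ 0 := by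
      intro h0
      have : L = 0 := by simp [hL, h0]
      rw [this, mul_zero] at hu
      exact hj (by exact_mod_cast abs_nonpos_iff.mp hu)
    rw [hL]; exact_mod_cast Int.one_le_abs h0
  have hprod : (1 / (2 * L ^ 2)) ^ (2 * q) ≤ ∏ i, ∏ j, 1 / (1 + (l i j : ℝ) ^ 2) := by
    calc (1 / (2 * L ^ 2)) ^ (2 * q) = ∏ _i : Fin q, ∏ _j : Fin 2, 1 / (2 * L ^ 2) := by
          simp [← pow_mul]
      _ ≤ _ := by
          refine Finset.prod_le_prod (fun _ _ => by positivity) fun i _ =>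
            Finset.prod_le_prod (fun _ _ => by positivity) fun j _ => ?_
          refine one_div_le_one_div_of_le (by positivity) ?_
          have h1 := hp (i, j)
          have h2 : (l i j : ℝ) ^ 2 ≤ L ^ 2 := by
            rw [← sq_abs]; exact pow_le_pow_left₀ (abs_nonneg _) h1 2
          nlinarith
  have hCp : L ^ N * ‖b l‖ ≤ ∑ p, |C p| :=
    (hC p l).trans ((le_abs_self _).trans (Finset.single_le_sum (f := fun p => |C p|)
      (fun _ _ => abs_nonneg _) (Finset.mem_univ p)))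
  calc ‖b l‖ * |(comb ε l j : ℝ)| ^ m ≤ ‖b l‖ * (q * L) ^ m := by gcongr
    _ = ((q:ℝ) ^ m * 2 ^ (2 * q) * (L ^ N * ‖b l‖)) * (1 / (2 * L ^ 2)) ^ (2 * q) := by
        rw [hN, one_div_pow, mul_pow, mul_pow, ← pow_mul]; field_simp; ring
    _ ≤ _ := by gcongr

theorem hasH : HasH Θ0 := by
  intro q hq d P hP b hb ε hε
  refine glue _ _ fun R => ?_
  obtain ⟨m, u, hu, hG⟩ := G_bound P d hP R
  obtain ⟨w, hw, hwb⟩ := weight_summable hq b hb ε hε m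
  have hj : ∀ l : {l : Fin q → Fin 2 → ℤ // comb ε l ≠ 0}, ∃ j, comb ε l.1 j ≠ 0 := fun l =>
    Function.ne_iff.mp l.2
  choose j hj using hj
  set a : {l : Fin q → Fin 2 → ℤ // comb ε l ≠ 0} → Fin 2 → ℝ :=
    fun l i => Real.sqrt 2 * (comb ε l.1 i : ℝ) with ha
  set lam : {l : Fin q → Fin 2 → ℤ // comb ε l ≠ 0} → ℂ :=
    fun l => exp (-(2 * Real.pi * I * (a l (j l) : ℂ))) - 1 with hlam
  have hl : ∀ l, 1 / |(comb ε l.1 (j l) : ℝ)| ≤ ‖lam l‖ := fun l => dioph _ (hj l)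
  have hup : ∀ l, 0 < |(comb ε l.1 (j l) : ℝ)| := fun l => abs_pos.mpr (by exact_mod_cast hj l)
  have hl0 : ∀ l, lam l ≠ 0 := fun l =>
    norm_pos_iff.mp ((one_div_pos.mpr (hup l)).trans_le (hl l))
  have hbd : ∀ l k, ∀ s ∈ ball (0:ℂ) R,
      ‖(fwdDiff (Pi.single (j l) 1 : Fin 2 → ℤ))^[m] (Fs P s) k * E (a l) k‖ ≤ u k := by
    intro l k s hs
    rw [norm_mul, norm_E, mul_one]; exact hG s hs k _
  refine ⟨fun s => ∑' l : {l : Fin q → Fin 2 → ℤ // comb ε l ≠ 0}, b l.1 * ((lam l ^ m)⁻¹ *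
    ∑' k, (fwdDiff (Pi.single (j l) 1 : Fin 2 → ℤ))^[m] (Fs P s) k * E (a l) k), ?_, fun s hs => ?_⟩
  · refine Complex.differentiableOn_tsum_of_summable_norm
      ((hw.subtype _).mul_right (∑' k, u k)) (fun l => ?_) isOpen_ball fun l s hs => ?_
    · refine DifferentiableOn.const_mul (DifferentiableOn.const_mul ?_ _) _
      exact Complex.differentiableOn_tsum_of_summable_norm hu
        (fun k => ((diff_G P _ k m).mul_const _).differentiableOn) isOpen_ball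
        fun k s hs => hbd l k s hs
    · rw [← mul_assoc, norm_mul]
      have h1 := tsum_of_norm_bounded hu.hasSum (fun k => hbd l k s hs)
      have h2 : ‖b l.1 * (lam l ^ m)⁻¹‖ ≤ w l.1 := by
        refine le_trans ?_ (hwb l.1 (j l) (hj l))
        rw [norm_mul, norm_inv, norm_pow, ← inv_pow]
        gcongr
        rw [inv_le_comm₀ (norm_pos_iff.mpr (hl0 l)) (hup l), ← one_div]
        exact hl l
      exact mul_le_mul h2 h1 (norm_nonneg _) ((norm_nonneg _).trans h2)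
  · unfold g0
    refine tsum_congr fun l => ?_
    rw [abel (E (a l)) (norm_E _) _ _ (E_sub (a l) (j l)) m _
      (summable_Fs P d hP s (by exact_mod_cast hs)), mulVec0, f_eq,
      ← mul_assoc (lam l ^ m)⁻¹, inv_mul_cancel₀ (pow_ne_zero m (hl0 l)), one_mul]

theorem result : (HasH Θ0 ∧ ¬ BadMat Θ0) ∧
    ¬ ∀ n : ℕ, 1 ≤ n → ∀ Θ : Matrix (Fin n) (Fin n) ℝ, HasH Θ → BadMat Θ :=
  ⟨⟨hasH, notBad⟩, fun h => notBad (h 2 (by norm_num) Θ0 hasH)⟩

end Pool.Agent.Results.MP_6f2e8a_an.Counter
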